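import Mathlib

set_option autoImplicit false
set_option maxHeartbeats 1000000
set_option linter.unusedSectionVars false

open Set Topology

namespace Pool.Agent.H843R3.Had2

variable {E : Type*} [NormedAddCommGroup E] [NormedSpace ℝ E]

/-- `v` points from `x` into `K`. -/
def Cn (K : Set E) (x v : E) : Prop := ∃ ε : ℝ, 0 < ε ∧ x + ε • v ∈ K

/-- `v` points from `x` into the interior of `K`. -/
def Co (K : Set E) (x v : E) : Prop := ∃ ε : ℝ, 0 < ε ∧ x + ε • v ∈ interior K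

variable {K : Set E} {x : E}

theorem Cn.shrink (hK : Convex ℝ K) (hx : x ∈ K) {v : E} {ε δ : ℝ} (h : x + ε • v ∈ K)
    (hδ : 0 ≤ δ) (hδε : δ ≤ ε) (hε : 0 < ε) : x + δ • v ∈ K := by
  have h1 : x + δ • v = (1 - δ / ε) • x + (δ / ε) • (x + ε • v) := by
    rw [smul_add, smul_smul, div_mul_cancel₀ _ hε.ne', ← add_assoc, ← add_smul]
    congr 1
    rw [sub_add_cancel, one_smul]
  rw [h1]
  exact hK hx h (by rw [sub_nonneg, div_le_one hε]; exact hδε) (by positivity) (by ring)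

theorem Cn.zero (hx : x ∈ K) : Cn K x 0 := ⟨1, one_pos, by simpa using hx⟩

theorem Cn.smul {v : E} (h : Cn K x v) (hx : x ∈ K) {c : ℝ} (hc : 0 ≤ c) : Cn K x (c • v) := by
  rcases hc.eq_or_lt with rfl | hc
  · rw [zero_smul]; exact Cn.zero hx
  · obtain ⟨ε, hε, h1⟩ := h
    refine ⟨ε / c, by positivity, ?_⟩
    rw [smul_smul, div_mul_cancel₀ _ hc.ne']
    exact h1

theorem Cn.add (hK : Convex ℝ K) (hx : x ∈ K) {v w : E} (hv : Cn K x v) (hw : Cn K x w) :
    Cn K x (v + w) := by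
  obtain ⟨ε, hε, h1⟩ := hv
  obtain ⟨δ, hδ, h2⟩ := hw
  set r := min ε δ with hr
  have hr0 : 0 < r := lt_min hε hδ
  have h3 := Cn.shrink hK hx h1 hr0.le (min_le_left _ _) hε
  have h4 := Cn.shrink hK hx h2 hr0.le (min_le_right _ _) hδ
  refine ⟨r / 2, by positivity, ?_⟩
  have h5 : x + (r / 2) • (v + w) = (1 / 2 : ℝ) • (x + r • v) + (1 / 2 : ℝ) • (x + r • w) := by
    module
  rw [h5]
  exact hK h3 h4 (by norm_num) (by norm_num) (by norm_num)

theorem Cn.sum (hK : Convex ℝ K) (hx : x ∈ K) {ι : Type*} (s : Finset ι) (f : ι → E)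
    (h : ∀ i ∈ s, Cn K x (f i)) : Cn K x (∑ i ∈ s, f i) :=
  Finset.sum_induction f (Cn K x) (fun _ _ ha hb => Cn.add hK hx ha hb) (Cn.zero hx) h

theorem Co.of (hK : Convex ℝ K) {v y : E} (hv : Cn K x v) (hy : y ∈ interior K) :
    Co K x (v + (y - x)) := by
  obtain ⟨θ, hθ, h1⟩ := hv
  refine ⟨θ / (1 + θ), by positivity, ?_⟩
  have h2 : x + (θ / (1 + θ)) • (v + (y - x)) =
      (1 / (1 + θ)) • (x + θ • v) + (θ / (1 + θ)) • y := by
    have h3 : (1 / (1 + θ)) = 1 - θ / (1 + θ) := by field_simp; ring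
    have h4 : (1 / (1 + θ)) * θ = θ / (1 + θ) := by field_simp
    rw [smul_add (1 / (1 + θ)), smul_smul, h4, h3]
    module
  rw [h2]
  exact hK.combo_self_interior_mem_interior h1 hy (by positivity) (by positivity)
    (by field_simp)

theorem Co.smul {v : E} (h : Co K x v) {c : ℝ} (hc : 0 < c) : Co K x (c • v) := by
  obtain ⟨ε, hε, h1⟩ := h
  refine ⟨ε / c, by positivity, ?_⟩
  rw [smul_smul, div_mul_cancel₀ _ hc.ne']
  exact h1

theorem Co.of_interior (hx : x ∈ interior K) (v : E) : Co K x v := by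
  have h1 : Filter.Tendsto (fun ε : ℝ => x + ε • v) (𝓝[>] 0) (𝓝 (x + (0 : ℝ) • v)) := by
    refine Filter.Tendsto.mono_left ?_ nhdsWithin_le_nhds
    exact (Continuous.tendsto (by fun_prop) 0)
  rw [zero_smul, add_zero] at h1
  have h2 : ∀ᶠ ε in 𝓝[>] (0 : ℝ), x + ε • v ∈ interior K :=
    h1.eventually (isOpen_interior.mem_nhds hx)
  obtain ⟨ε, hε1, hε2⟩ := (h2.and self_mem_nhdsWithin).exists
  exact ⟨ε, hε2, hε1⟩

/-- the reflection -/
theorem neg_interior (hs : ∀ y ∈ K, -y ∈ K) {y : E} (hy : y ∈ interior K) : -y ∈ interior K := by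
  have h1 : -K = K := by
    ext z
    rw [Set.mem_neg]
    exact ⟨fun h => by simpa using hs _ h, fun h => hs _ h⟩
  have h2 : -(interior K) = interior K := by
    have : (Homeomorph.neg E) ⁻¹' (interior K) = interior ((Homeomorph.neg E) ⁻¹' K) :=
      (Homeomorph.neg E).preimage_interior K
    have h3 : (Homeomorph.neg E) ⁻¹' K = K := h1
    rw [h3] at this
    exact this
  rw [← h2]
  simpa using hy

theorem Co.neg (hs : ∀ y ∈ K, -y ∈ K) {v : E} (h : Co K (-x) v) : Co K x (-v) := by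
  obtain ⟨ε, hε, h1⟩ := h
  refine ⟨ε, hε, ?_⟩
  have := neg_interior hs h1
  rw [neg_add, neg_neg, ← smul_neg] at this
  exact this

theorem zero_int (hK : Convex ℝ K) (hs : ∀ y ∈ K, -y ∈ K) (hi : (interior K).Nonempty) :
    (0 : E) ∈ interior K := by
  obtain ⟨y, hy⟩ := hi
  have h1 := neg_interior hs hy
  have h2 := hK.interior hy h1 (a := 1 / 2) (b := 1 / 2) (by norm_num) (by norm_num) (by norm_num)
  simpa using h2

theorem smul_int (hK : Convex ℝ K) (hs : ∀ y ∈ K, -y ∈ K) (h0 : (0 : E) ∈ interior K)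
    {y : E} (hy : y ∈ K) {c : ℝ} (hc : |c| < 1) : c • y ∈ interior K := by
  rcases le_or_gt 0 c with h | h
  · rw [abs_of_nonneg h] at hc
    have := hK.combo_self_interior_mem_interior hy h0 h (b := 1 - c) (by linarith) (by ring)
    simpa using this
  · rw [abs_of_neg h] at hc
    have := hK.combo_self_interior_mem_interior (hs y hy) h0 (a := -c) (by linarith)
      (b := 1 + c) (by linarith) (by ring)
    simpa using this

/-- From pointwise to uniform. -/
theorem unif {ι : Type*} {K S : Set E} (hK : Convex ℝ K) (hS : IsCompact S) (hSK : S ⊆ K)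
    (w : ι → E) (h : ∀ x ∈ S, ∃ j, Co K x (w j)) :
    ∃ r : ℝ, 0 < r ∧ ∀ x ∈ S, ∃ j, x + r • w j ∈ interior K := by
  have key : ∃ r : ℝ, 0 < r ∧ ∀ r' : ℝ, 0 < r' → r' ≤ r → ∀ x ∈ S, x ∈ K →
      ∃ j, x + r' • w j ∈ interior K := by
    refine hS.induction_on (p := fun s => ∃ r : ℝ, 0 < r ∧ ∀ r' : ℝ, 0 < r' → r' ≤ r →
      ∀ x ∈ s, x ∈ K → ∃ j, x + r' • w j ∈ interior K) ?_ ?_ ?_ ?_
    · exact ⟨1, one_pos, fun _ _ _ x hx => absurd hx (notMem_empty x)⟩
    · rintro s t hst ⟨r, hr, h1⟩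
      exact ⟨r, hr, fun r' h2 h3 x hx => h1 r' h2 h3 x (hst hx)⟩
    · rintro s t ⟨r, hr, h1⟩ ⟨r2, hr2, h2⟩
      refine ⟨min r r2, lt_min hr hr2, fun r' h3 h4 x hx => ?_⟩
      rcases hx with hx | hx
      · exact h1 r' h3 (h4.trans (min_le_left _ _)) x hx
      · exact h2 r' h3 (h4.trans (min_le_right _ _)) x hx
    · intro x hx
      obtain ⟨j, ε, hε, hj⟩ := h x hx
      refine ⟨S ∩ {y | y + ε • w j ∈ interior K}, ?_, ε, hε, ?_⟩
      · refine inter_mem_nhdsWithin S ?_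
        refine IsOpen.mem_nhds ?_ hj
        exact isOpen_interior.preimage (continuous_id.add continuous_const)
      · rintro r' hr' hle y ⟨_, hy⟩ hyK
        refine ⟨j, ?_⟩
        have h1 : y + r' • w j = (1 - r' / ε) • y + (r' / ε) • (y + ε • w j) := by
          rw [smul_add, smul_smul, div_mul_cancel₀ _ hε.ne', ← add_assoc, ← add_smul]
          congr 1
          rw [sub_add_cancel, one_smul]
        rw [h1]
        exact hK.combo_self_interior_mem_interior hyK hy (by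
            rw [sub_nonneg, div_le_one hε]; exact hle) (by positivity) (by ring)
  obtain ⟨r, hr, h1⟩ := key
  exact ⟨r, hr, fun x hx => h1 r hr le_rfl x hx (hSK hx)⟩

end Pool.Agent.H843R3.Had2
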