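import Mathlib
import Pool.Agent.H843R3.Had2.Cone

set_option autoImplicit false
set_option maxHeartbeats 1000000

open Set Topology

namespace Pool.Agent.H843R3.Had2

/-- horizontal convexity -/
theorem hconv {Q : Set (ℝ × ℝ)} (hQ : Convex ℝ Q) {a b c h : ℝ} (ha : (a, h) ∈ Q)
    (hb : (b, h) ∈ Q) (hac : a ≤ c) (hcb : c ≤ b) : (c, h) ∈ Q := by
  have h1 : Convex ℝ ((fun t : ℝ => (t, h)) ⁻¹' Q) := by
    intro s hs t ht u v hu hv huv
    have h2 := hQ hs ht hu hv huv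
    have h3 : u • ((s, h) : ℝ × ℝ) + v • (t, h) = (u • s + v • t, h) := by
      ext
      · simp
      · simp only [Prod.snd_add, Prod.smul_snd, smul_eq_mul]
        rw [← add_mul, huv, one_mul]
    show (u • s + v • t, h) ∈ Q
    rw [← h3]
    exact h2
  exact h1.ordConnected.out ha hb ⟨hac, hcb⟩

/-- The region in which the shadow of a point in general position lies. -/
def Reg (Q : Set (ℝ × ℝ)) (κ κ' : ℝ) : Set (ℝ × ℝ) :=
  {q | q ∈ Q ∧ (-κ * max q.1 0, q.2) ∈ Q ∧ (κ' * max (-q.1) 0, q.2) ∈ Q}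

theorem Reg.isCompact {Q : Set (ℝ × ℝ)} (hc : IsCompact Q) (κ κ' : ℝ) :
    IsCompact (Reg Q κ κ') := by
  have h1 : IsClosed Q := hc.isClosed
  refine hc.of_isClosed_subset ?_ (fun q hq => hq.1)
  refine h1.inter (IsClosed.inter ?_ ?_)
  · exact h1.preimage (by fun_prop : Continuous fun q : ℝ × ℝ => (-κ * max q.1 0, q.2))
  · exact h1.preimage (by fun_prop : Continuous fun q : ℝ × ℝ => (κ' * max (-q.1) 0, q.2))

/-- Case 1 of the planar lemma. -/
theorem planar_one {Q : Set (ℝ × ℝ)} (hQ : Convex ℝ Q) (hc : IsCompact Q)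
    (h0 : 0 ∈ interior Q) (hs : ∀ q ∈ Q, -q ∈ Q) (hz : ∀ q ∈ Q, ((0 : ℝ), q.2) ∈ Q)
    {κ κ' : ℝ} (hκ : 0 < κ) (hκ' : κ ≤ κ')
    {p : ℝ × ℝ} (hp : p ∈ Q) (hp' : (-κ * max p.1 0, p.2) ∉ Q) :
    ∃ d : Bool → ℝ × ℝ, ∀ q ∈ Reg Q κ κ', ∃ b, Co Q q (d b) := by
  set R : Set (ℝ × ℝ) := {q | q ∈ Q ∧ (-κ * max q.1 0, q.2) ∈ Q} with hR
  have hRcl : IsClosed R := hc.isClosed.inter
    (hc.isClosed.preimage (by fun_prop : Continuous fun q : ℝ × ℝ => (-κ * max q.1 0, q.2)))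
  have hRc : Convex ℝ R := by
    rintro q ⟨hq1, hq2⟩ q' ⟨hq1', hq2'⟩ a b ha hb hab
    refine ⟨hQ hq1 hq1' ha hb hab, ?_⟩
    have h1 := hQ hq2 hq2' ha hb hab
    have h2 := hz _ (hQ hq1 hq1' ha hb hab)
    have h3 : a • ((-κ * max q.1 0, q.2) : ℝ × ℝ) + b • (-κ * max q'.1 0, q'.2) =
        (-κ * (a * max q.1 0 + b * max q'.1 0), (a • q + b • q').2) := by
      ext
      · simp; ring
      · simp
    rw [h3] at h1
    refine hconv hQ h1 h2 ?_ ?_
    · have h4 : max (a • q + b • q').1 0 ≤ a * max q.1 0 + b * max q'.1 0 := by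
        refine max_le ?_ (by positivity)
        simp only [Prod.fst_add, Prod.smul_fst, smul_eq_mul]
        have h5 := mul_le_mul_of_nonneg_left (le_max_left q.1 0) ha
        have h6 := mul_le_mul_of_nonneg_left (le_max_left q'.1 0) hb
        linarith
      nlinarith
    · have h4 : 0 ≤ max (a • q + b • q').1 0 := le_max_right _ _
      nlinarith
  have hpR : p ∉ R := fun h => hp' h.2
  obtain ⟨f, u, hf1, hf2⟩ := geometric_hahn_banach_closed_point hRc hRcl hpR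
  obtain ⟨qL, hqL, hmax⟩ := hc.exists_isMaxOn ⟨p, hp⟩ f.continuous.continuousOn
  have hmax' : ∀ q ∈ Q, f q ≤ f qL := fun q hq => hmax hq
  have h0R : (0 : ℝ × ℝ) ∈ R := by
    refine ⟨interior_subset h0, ?_⟩
    have h1 : ((-κ * max (0 : ℝ × ℝ).1 0, (0 : ℝ × ℝ).2) : ℝ × ℝ) = 0 := by
      ext <;> simp
    rw [h1]
    exact interior_subset h0
  have hL : 0 < f qL := by
    have h1 := hf1 0 h0R
    rw [map_zero] at h1
    have h2 := hmax' p hp
    linarith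
  have hfu : ∀ q ∈ R, f q < f qL := fun q hq => by
    have h1 := hf1 q hq
    have h2 := hmax' p hp
    linarith
  set α : ℝ := f (1, 0) with hα
  set β : ℝ := f (0, 1) with hβ
  have hf : ∀ q : ℝ × ℝ, f q = α * q.1 + β * q.2 := by
    intro q
    have h1 : q = q.1 • ((1 : ℝ), (0 : ℝ)) + q.2 • ((0 : ℝ), (1 : ℝ)) := by
      ext <;> simp
    conv_lhs => rw [h1]
    rw [map_add, map_smul, map_smul, smul_eq_mul, smul_eq_mul]
    ring
  have hαβ : 0 < α ^ 2 + β ^ 2 := by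
    by_contra hcon
    have h1 : α = 0 := by nlinarith [sq_nonneg α, sq_nonneg β]
    have h2 : β = 0 := by nlinarith [sq_nonneg α, sq_nonneg β]
    rw [hf, h1, h2] at hL
    simp at hL
  refine ⟨fun b => if b then (-β, α) else (β, -α), ?_⟩
  intro q hq
  have hqR : q ∈ R := ⟨hq.1, hq.2.1⟩
  have hqR' : -q ∈ R := by
    refine ⟨hs q hq.1, ?_⟩
    have h1 := hs _ hq.2.2
    have h2 : -((κ' * max (-q.1) 0, q.2) : ℝ × ℝ) = (-κ' * max (-q.1) 0, -q.2) := by
      ext <;> simp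
    rw [h2] at h1
    have h3 := hz _ h1
    have h4 : 0 ≤ max (-q.1) 0 := le_max_right _ _
    show (-κ * max (-q.1) 0, -q.2) ∈ Q
    exact hconv hQ h1 h3 (by nlinarith) (by nlinarith)
  have hq1 := hfu q hqR
  have hq2 := hfu _ hqR'
  rw [map_neg] at hq2
  set c : ℝ := f q / f qL with hcdef
  have hcabs : |c| < 1 := by
    rw [hcdef, abs_div, abs_of_pos hL, div_lt_one hL, abs_lt]
    constructor <;> linarith
  have hint := smul_int hQ hs h0 hqL hcabs
  have hker : f (c • qL - q) = 0 := by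
    rw [map_sub, map_smul, smul_eq_mul, hcdef]
    field_simp
    ring
  set v : ℝ × ℝ := c • qL - q with hv
  have hv1 : α * v.1 + β * v.2 = 0 := by rw [← hf]; exact hker
  set σ : ℝ := (-β * v.1 + α * v.2) / (α ^ 2 + β ^ 2) with hσ
  have hvσ : v = σ • (-β, α) := by
    ext
    · simp only [Prod.smul_mk, smul_eq_mul]
      rw [hσ]
      field_simp
      linear_combination α * hv1
    · simp only [Prod.smul_mk, smul_eq_mul]
      rw [hσ]
      field_simp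
      linear_combination β * hv1
  have hqv : q + v ∈ interior Q := by
    rw [hv, add_sub_cancel]
    exact hint
  rcases lt_trichotomy σ 0 with h | h | h
  · refine ⟨false, -σ, by linarith, ?_⟩
    have h1 : (-σ) • ((β, -α) : ℝ × ℝ) = v := by
      rw [hvσ]
      ext <;> simp
    simp only [Bool.false_eq_true, if_false]
    rw [h1]
    exact hqv
  · rw [h, zero_smul] at hvσ
    rw [hvσ, add_zero] at hqv
    exact ⟨true, Co.of_interior hqv _⟩
  · refine ⟨true, σ, h, ?_⟩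
    simp only [if_true]
    rw [← hvσ]
    exact hqv

/-- Case 2 of the planar lemma. -/
theorem planar_two {Q : Set (ℝ × ℝ)} (hQ : Convex ℝ Q) (hc : IsCompact Q)
    (h0 : 0 ∈ interior Q) (hs : ∀ q ∈ Q, -q ∈ Q)
    {κ κ' : ℝ} (hκ : 0 < κ) (hκκ : 1 < κ * κ')
    (hall : ∀ p ∈ Q, (-κ * max p.1 0, p.2) ∈ Q) (J : Set ℝ)
    (hJ : ∀ h ∈ J, ∀ a, (a, h) ∈ Q → ∃ A : ℝ, A ≠ 0 ∧ (A, h) ∈ Q) :
    ∃ d : Bool → ℝ × ℝ, ∀ q ∈ Reg Q κ κ', q.2 ∈ J → ∃ b, Co Q q (d b) := by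
  obtain ⟨R, hR⟩ := hc.isBounded.exists_norm_le
  have hR1 : ∀ q ∈ Q, |q.1| ≤ R := fun q hq => (norm_fst_le q).trans (hR q hq)
  have hR0 : 0 ≤ R := (norm_nonneg _).trans (hR 0 (interior_subset h0))
  obtain ⟨y, hy0, hy⟩ : ∃ y : ℝ, 0 < y ∧ ((0 : ℝ), y) ∈ interior Q := by
    obtain ⟨ε, hε, h1⟩ := Co.of_interior h0 ((0 : ℝ), (1 : ℝ))
    refine ⟨ε, hε, ?_⟩
    have h2 : (0 : ℝ × ℝ) + ε • ((0 : ℝ), (1 : ℝ)) = (0, ε) := by
      ext <;> simp
    rw [← h2]
    exact h1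
  have hy' : ((0 : ℝ), -y) ∈ interior Q := by
    have h1 := neg_interior hs hy
    have h2 : -(((0 : ℝ), y) : ℝ × ℝ) = (0, -y) := by
      ext <;> simp
    rw [← h2]
    exact h1
  refine ⟨fun b => if b then (-(R / y), -1) else (-(R / y), 1), ?_⟩
  rintro q ⟨hq, hq1, hq2⟩ hqJ
  -- there is room to the left
  have hleft : Cn Q q (-1, 0) := by
    have key : ∃ s : ℝ, 0 < s ∧ (q.1 - s, q.2) ∈ Q := by
      rcases lt_trichotomy q.1 0 with h | h | h
      · have h1 := hall _ hq2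
        simp only at h1
        rw [max_eq_left (by linarith : (0 : ℝ) ≤ -q.1)] at h1
        have h2 : max (κ' * -q.1) 0 = κ' * -q.1 := by
          refine max_eq_left ?_
          have : 0 < κ' := by
            by_contra hcon
            nlinarith
          nlinarith
        rw [h2] at h1
        refine ⟨(κ * κ' - 1) * (-q.1), by nlinarith, ?_⟩
        have h3 : q.1 - (κ * κ' - 1) * (-q.1) = -κ * (κ' * -q.1) := by ring
        rw [h3]
        exact h1
      · obtain ⟨A, hA, hA1⟩ := hJ q.2 hqJ q.1 hq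
        rcases lt_or_gt_of_ne hA with h1 | h1
        · refine ⟨-A, by linarith, ?_⟩
          rw [h, zero_sub, neg_neg]
          exact hA1
        · have h2 := hall _ hA1
          simp only at h2
          rw [max_eq_left h1.le] at h2
          refine ⟨κ * A, by positivity, ?_⟩
          rw [h, zero_sub, ← neg_mul]
          exact h2
      · rw [max_eq_left h.le] at hq1
        refine ⟨q.1 + κ * q.1, by positivity, ?_⟩
        have h3 : q.1 - (q.1 + κ * q.1) = -κ * q.1 := by ring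
        rw [h3]
        exact hq1
    obtain ⟨s, hs0, h1⟩ := key
    refine ⟨s, hs0, ?_⟩
    have h2 : q + s • ((-1 : ℝ), (0 : ℝ)) = (q.1 - s, q.2) := by
      ext
      · simp; ring
      · simp
    rw [h2]
    exact h1
  have hqR := hR1 q hq
  rw [abs_le] at hqR
  rcases le_or_gt 0 q.2 with h | h
  · refine ⟨true, ?_⟩
    simp only [if_true]
    have h1 : 0 ≤ R / y * (q.2 + y) - q.1 := by
      have h2 : R / y * (q.2 + y) = R / y * q.2 + R := by field_simp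
      have h3 : 0 ≤ R / y * q.2 := by positivity
      linarith
    have h2 := Co.of hQ (hleft.smul hq h1) hy'
    have h3 : (R / y * (q.2 + y) - q.1) • (((-1 : ℝ), (0 : ℝ)) : ℝ × ℝ) + ((0, -y) - q) =
        (q.2 + y) • (-(R / y), -1) := by
      ext
      · simp; ring
      · simp; ring
    rw [h3] at h2
    have h4 := h2.smul (c := 1 / (q.2 + y)) (by positivity)
    rw [smul_smul, one_div, inv_mul_cancel₀ (by positivity : q.2 + y ≠ 0), one_smul] at h4
    exact h4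
  · refine ⟨false, ?_⟩
    simp only [Bool.false_eq_true, if_false]
    have h5 : 0 < -q.2 + y := by linarith
    have h1 : 0 ≤ R / y * (-q.2 + y) - q.1 := by
      have h2 : R / y * (-q.2 + y) = R / y * (-q.2) + R := by field_simp
      have h3 : 0 ≤ R / y * (-q.2) := mul_nonneg (by positivity) (by linarith)
      linarith
    have h2 := Co.of hQ (hleft.smul hq h1) hy
    have h3 : (R / y * (-q.2 + y) - q.1) • (((-1 : ℝ), (0 : ℝ)) : ℝ × ℝ) + ((0, y) - q) =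
        (-q.2 + y) • (-(R / y), 1) := by
      ext
      · simp; ring
      · simp; ring
    rw [h3] at h2
    have h4 := h2.smul (c := 1 / (-q.2 + y)) (by positivity)
    rw [smul_smul, one_div, inv_mul_cancel₀ h5.ne', one_smul] at h4
    exact h4

/-- The planar lemma, under the assumption `κ ≤ κ'`. -/
theorem planar_le {Q : Set (ℝ × ℝ)} (hQ : Convex ℝ Q) (hc : IsCompact Q)
    (h0 : 0 ∈ interior Q) (hs : ∀ q ∈ Q, -q ∈ Q) (hz : ∀ q ∈ Q, ((0 : ℝ), q.2) ∈ Q)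
    {κ κ' : ℝ} (hκ : 0 < κ) (hκκ : 1 < κ * κ') (hκ' : κ ≤ κ') (J : Set ℝ)
    (hJ : ∀ h ∈ J, ∀ a, (a, h) ∈ Q → ∃ A : ℝ, A ≠ 0 ∧ (A, h) ∈ Q) :
    ∃ d : Bool → ℝ × ℝ, ∀ q ∈ Reg Q κ κ', q.2 ∈ J → ∃ b, Co Q q (d b) := by
  by_cases hall : ∀ p ∈ Q, (-κ * max p.1 0, p.2) ∈ Q
  · exact planar_two hQ hc h0 hs hκ hκκ hall J hJ
  · push Not at hall
    obtain ⟨p, hp, hp'⟩ := hall
    obtain ⟨d, hd⟩ := planar_one hQ hc h0 hs hz hκ hκ' hp hp'
    exact ⟨d, fun q hq _ => hd q hq⟩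

/-- The planar lemma. -/
theorem planar {Q : Set (ℝ × ℝ)} (hQ : Convex ℝ Q) (hc : IsCompact Q)
    (h0 : 0 ∈ interior Q) (hs : ∀ q ∈ Q, -q ∈ Q) (hz : ∀ q ∈ Q, ((0 : ℝ), q.2) ∈ Q)
    {κ κ' : ℝ} (hκ : 0 < κ) (hκ' : 0 < κ') (hκκ : 1 < κ * κ') (J : Set ℝ)
    (hJs : ∀ h ∈ J, -h ∈ J)
    (hJ : ∀ h ∈ J, ∀ a, (a, h) ∈ Q → ∃ A : ℝ, A ≠ 0 ∧ (A, h) ∈ Q) :
    ∃ d : Bool → ℝ × ℝ, ∀ q ∈ Reg Q κ κ', q.2 ∈ J → ∃ b, Co Q q (d b) := by
  rcases le_total κ κ' with h | h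
  · exact planar_le hQ hc h0 hs hz hκ hκκ h J hJ
  · obtain ⟨d, hd⟩ := planar_le hQ hc h0 hs hz hκ' (by rw [mul_comm]; exact hκκ) h J hJ
    refine ⟨fun b => -d b, ?_⟩
    rintro q ⟨hq, hq1, hq2⟩ hqJ
    have h1 : -q ∈ Reg Q κ' κ := by
      refine ⟨hs q hq, ?_, ?_⟩
      · have h2 := hs _ hq2
        have h3 : -((κ' * max (-q.1) 0, q.2) : ℝ × ℝ) = (-κ' * max (-q).1 0, (-q).2) := by
          ext <;> simp
        rw [← h3]
        exact h2
      · have h2 := hs _ hq1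
        have h3 : -((-κ * max q.1 0, q.2) : ℝ × ℝ) = (κ * max (-(-q).1) 0, (-q).2) := by
          ext <;> simp
        rw [← h3]
        exact h2
    obtain ⟨b, hb⟩ := hd _ h1 (hJs _ hqJ)
    exact ⟨b, Co.neg hs hb⟩

end Pool.Agent.H843R3.Had2
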