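import Mathlib
import Pool.Agent.H843R3.Had2.Planar

set_option autoImplicit false
set_option maxHeartbeats 1000000
set_option linter.unusedSectionVars false
set_option linter.unusedVariables false

open Set Topology

namespace Pool.Agent.H843R3.Had2

theorem perm_sum_eq {β : Type*} [Fintype β] [DecidableEq β] (g : β → ℝ) (a b : β) :
    ∑ σ : Equiv.Perm β, g (σ a) = ∑ σ : Equiv.Perm β, g (σ b) := by
  refine Fintype.sum_equiv (Equiv.mulRight (Equiv.swap a b)) _ _ fun σ => ?_
  simp

theorem perm_sum {β : Type*} [Fintype β] [DecidableEq β] (g : β → ℝ) (a : β) :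
    (Fintype.card β : ℝ) * ∑ σ : Equiv.Perm β, g (σ a) =
      (Fintype.card (Equiv.Perm β) : ℝ) * ∑ b, g b := by
  have h1 : ∑ b : β, ∑ σ : Equiv.Perm β, g (σ b) =
      (Fintype.card β : ℝ) * ∑ σ : Equiv.Perm β, g (σ a) := by
    rw [Finset.sum_congr rfl (fun b _ => perm_sum_eq g b a), Finset.sum_const, Finset.card_univ,
      nsmul_eq_mul]
  rw [← h1, Finset.sum_comm,
    Finset.sum_congr rfl (fun (σ : Equiv.Perm β) _ => Equiv.sum_comp σ g), Finset.sum_const,
    Finset.card_univ, nsmul_eq_mul]

variable {α : Type*} [Fintype α] [DecidableEq α]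

/-- A centrally symmetric convex body which is invariant under permutations of the coordinates. -/
structure Body (K : Set (Option α → ℝ)) : Prop where
  conv : Convex ℝ K
  comp : IsCompact K
  int : (interior K).Nonempty
  symm : ∀ x ∈ K, -x ∈ K
  perm : ∀ (σ : Equiv.Perm (Option α)) (x : Option α → ℝ), x ∈ K → (fun i => x (σ i)) ∈ K
  card : 1 ≤ Fintype.card α

/-- The plane of vectors constant on `α`. -/
noncomputable def P (α : Type*) [Fintype α] : (ℝ × ℝ) →ₗ[ℝ] (Option α → ℝ) where
  toFun q := fun i => i.elim (q.1 + q.2 / (Fintype.card α + 1))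
    (fun _ => -q.1 / Fintype.card α + q.2 / (Fintype.card α + 1))
  map_add' p q := by
    ext i
    cases i
    · simp only [Prod.fst_add, Prod.snd_add, Option.elim_none, Pi.add_apply]; ring
    · simp only [Prod.fst_add, Prod.snd_add, Option.elim_some, Pi.add_apply]; ring
  map_smul' c q := by
    ext i
    cases i
    · simp only [Prod.smul_fst, Prod.smul_snd, Option.elim_none, Pi.smul_apply, smul_eq_mul,
        RingHom.id_apply]; ring
    · simp only [Prod.smul_fst, Prod.smul_snd, Option.elim_some, Pi.smul_apply, smul_eq_mul,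
        RingHom.id_apply]; ring

omit [DecidableEq α] in
theorem P_none (q : ℝ × ℝ) : P α q none = q.1 + q.2 / (Fintype.card α + 1) := rfl

omit [DecidableEq α] in
theorem P_some (q : ℝ × ℝ) (a : α) :
    P α q (some a) = -q.1 / Fintype.card α + q.2 / (Fintype.card α + 1) := rfl

omit [DecidableEq α] in
theorem P_cont : Continuous (P α) := LinearMap.continuous_of_finiteDimensional _

/-- The shadow of a vector. -/
noncomputable def Sh (x : Option α → ℝ) : ℝ × ℝ :=
  (x none - (∑ i, x i) / (Fintype.card α + 1), ∑ i, x i)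

omit [DecidableEq α] in
theorem Sh_cont : Continuous (Sh (α := α)) := by
  unfold Sh
  fun_prop

omit [DecidableEq α] in
theorem sum_P (hα : 1 ≤ Fintype.card α) (q : ℝ × ℝ) : ∑ i, P α q i = q.2 := by
  have h1 : (0 : ℝ) < Fintype.card α := by exact_mod_cast hα
  rw [Fintype.sum_option, P_none]
  simp only [P_some]
  rw [Finset.sum_const, Finset.card_univ, nsmul_eq_mul]
  field_simp
  ring

omit [DecidableEq α] in
theorem Sh_P (hα : 1 ≤ Fintype.card α) (q : ℝ × ℝ) : Sh (P α q) = q := by
  unfold Sh
  rw [sum_P hα, P_none]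
  ext
  · simp
  · rfl

omit [DecidableEq α] in
theorem P_Sh_none (x : Option α → ℝ) : P α (Sh x) none = x none := by
  rw [P_none, Sh]
  simp

variable {K : Set (Option α → ℝ)}

/-- averaging over the permutations fixing `none` -/
theorem Body.avg (h : Body K) {x : Option α → ℝ} (hx : x ∈ K) : P α (Sh x) ∈ K := by
  have hd := h.card
  have hd0 : (0 : ℝ) < Fintype.card α := by exact_mod_cast hd
  set N : ℝ := (Fintype.card (Equiv.Perm α) : ℝ) with hN
  have hN0 : 0 < N := by
    rw [hN]
    exact_mod_cast Fintype.card_pos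
  have h1 : ∑ σ : Equiv.Perm α, (1 / N) • (fun i => x ((Equiv.optionCongr σ) i)) ∈ K := by
    refine h.conv.sum_mem (fun _ _ => by positivity) ?_ (fun σ _ => h.perm _ x hx)
    rw [Finset.sum_const, Finset.card_univ, nsmul_eq_mul]
    field_simp
    exact hN.symm
  have h2 : ∑ σ : Equiv.Perm α, (1 / N) • (fun i => x ((Equiv.optionCongr σ) i)) = P α (Sh x) := by
    rw [← Finset.smul_sum]
    ext i
    rw [Pi.smul_apply, Finset.sum_apply, smul_eq_mul]
    cases i with
    | none =>
      rw [P_Sh_none]
      simp only [Equiv.optionCongr_apply, Option.map_none, Finset.sum_const, Finset.card_univ,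
        nsmul_eq_mul]
      rw [← hN]
      field_simp
    | some a =>
      have e3 := perm_sum (fun b : α => x (some b)) a
      have e5 : ∑ σ : Equiv.Perm α, x ((Equiv.optionCongr σ) (some a)) =
          ∑ σ : Equiv.Perm α, x (some (σ a)) := by
        refine Finset.sum_congr rfl fun σ _ => ?_
        simp
      rw [e5, P_some, Sh]
      simp only
      rw [Fintype.sum_option]
      rw [← hN] at e3
      have e6 : ∑ σ : Equiv.Perm α, x (some (σ a)) =
          N * (∑ b : α, x (some b)) / Fintype.card α := by
        rw [eq_div_iff hd0.ne', mul_comm]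
        exact e3
      rw [e6]
      field_simp
      ring
  rw [← h2]
  exact h1

theorem Body.avg_i (h : Body K) {x : Option α → ℝ} (hx : x ∈ K) (i : Option α) :
    P α (x i - (∑ j, x j) / (Fintype.card α + 1), ∑ j, x j) ∈ K := by
  have h1 := h.avg (h.perm (Equiv.swap none i) x hx)
  have h2 : Sh (fun j => x (Equiv.swap none i j)) =
      (x i - (∑ j, x j) / (Fintype.card α + 1), ∑ j, x j) := by
    unfold Sh
    rw [Equiv.sum_comp (Equiv.swap none i) x]
    simp only [Equiv.swap_apply_left]
  rwa [h2] at h1

/-- The shadow of `K`. -/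
def Qs (K : Set (Option α → ℝ)) : Set (ℝ × ℝ) := {q | P α q ∈ K}

theorem Body.Qs_eq (h : Body K) : Qs K = Sh '' K := by
  ext q
  constructor
  · intro hq
    exact ⟨P α q, hq, Sh_P h.card q⟩
  · rintro ⟨x, hx, rfl⟩
    exact h.avg hx

theorem Body.Q_conv (h : Body K) : Convex ℝ (Qs K) := h.conv.linear_preimage (P α)

theorem Body.Q_comp (h : Body K) : IsCompact (Qs K) := by
  rw [h.Qs_eq]
  exact h.comp.image Sh_cont

theorem Body.Q_symm (h : Body K) : ∀ q ∈ Qs K, -q ∈ Qs K := by
  intro q hq
  show P α (-q) ∈ K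
  rw [map_neg]
  exact h.symm _ hq

theorem Body.zero_mem (h : Body K) : (0 : Option α → ℝ) ∈ interior K :=
  zero_int h.conv h.symm h.int

theorem Body.Q_int (h : Body K) {q : ℝ × ℝ} (hq : P α q ∈ interior K) : q ∈ interior (Qs K) := by
  have h1 : (P α) ⁻¹' (interior K) ⊆ interior (Qs K) :=
    interior_maximal (preimage_mono interior_subset) (isOpen_interior.preimage P_cont)
  exact h1 hq

theorem Body.Q_zero (h : Body K) : (0 : ℝ × ℝ) ∈ interior (Qs K) := by
  apply h.Q_int
  rw [map_zero]
  exact h.zero_mem

theorem Body.P_int (h : Body K) {q : ℝ × ℝ} (hq : q ∈ interior (Qs K)) : P α q ∈ interior K := by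
  obtain ⟨ε, hε, h1⟩ := Co.of_interior hq q
  have h2 : q + ε • q = (1 + ε) • q := by rw [add_smul, one_smul]
  rw [h2] at h1
  have h3 : P α ((1 + ε) • q) ∈ K := by
    have : (1 + ε) • q ∈ Qs K := interior_subset h1
    exact this
  have h4 := smul_int h.conv h.symm h.zero_mem h3 (c := 1 / (1 + ε)) (by
    rw [abs_of_pos (by positivity), div_lt_one (by positivity)]
    linarith)
  rw [map_smul, smul_smul, one_div, inv_mul_cancel₀ (by positivity : (1 + ε) ≠ 0), one_smul] at h4
  exact h4

/-- other sign -/
theorem Body.Q_opp (h : Body K) {q : ℝ × ℝ} (hq : q ∈ Qs K) :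
    (-q.1 / (Fintype.card α : ℝ), q.2) ∈ Qs K := by
  have hα := h.card
  obtain ⟨a⟩ : Nonempty α := Fintype.card_pos_iff.1 hα
  have h1 := h.avg_i (x := P α q) hq (some a)
  rw [sum_P hα, P_some, add_sub_cancel_right] at h1
  exact h1

theorem Body.Q_z (h : Body K) : ∀ q ∈ Qs K, ((0 : ℝ), q.2) ∈ Qs K := by
  intro q hq
  have h1 := h.Q_opp hq
  have hd0 : (0 : ℝ) < Fintype.card α := by exact_mod_cast h.card
  rcases le_total q.1 0 with h2 | h2
  · exact hconv h.Q_conv (a := q.1) (b := -q.1 / (Fintype.card α : ℝ)) hq h1 h2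
      (div_nonneg (by linarith) hd0.le)
  · exact hconv h.Q_conv (a := -q.1 / (Fintype.card α : ℝ)) (b := q.1) h1 hq
      (div_nonpos_of_nonpos_of_nonneg (by linarith) hd0.le) h2

/-- a swap -/
theorem Body.swap (h : Body K) {x : Option α → ℝ} (hx : x ∈ K) {a b : Option α}
    (hab : x b < x a) : Cn K x (Pi.single b 1 - Pi.single a 1) := by
  refine ⟨x a - x b, by linarith, ?_⟩
  have h1 := h.perm (Equiv.swap a b) x hx
  have h2 : x + (x a - x b) • (Pi.single b (1 : ℝ) - Pi.single a (1 : ℝ)) =
      fun i => x (Equiv.swap a b i) := by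
    have hne : a ≠ b := by rintro rfl; exact lt_irrefl _ hab
    ext i
    simp only [Pi.add_apply, Pi.smul_apply, Pi.sub_apply, smul_eq_mul]
    by_cases hia : i = a
    · subst hia
      rw [Equiv.swap_apply_left, Pi.single_eq_same, Pi.single_eq_of_ne hne]
      ring
    · by_cases hib : i = b
      · subst hib
        rw [Equiv.swap_apply_right, Pi.single_eq_same, Pi.single_eq_of_ne hia]
        ring
      · rw [Equiv.swap_apply_of_ne_of_ne hia hib, Pi.single_eq_of_ne hib, Pi.single_eq_of_ne hia]
        ring
  rw [h2]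
  exact h1

/-- transport of mass from larger coordinates to smaller coordinates -/
theorem Body.transport (h : Body K) {x : Option α → ℝ} (hx : x ∈ K) (v : Option α → ℝ)
    (hv : ∑ i, v i = 0) (hvx : ∀ a b, v a < 0 → 0 < v b → x b < x a) : Cn K x v := by
  set n : Option α → ℝ := fun i => max (-v i) 0 with hn
  set p : Option α → ℝ := fun i => max (v i) 0 with hp
  have hpn : ∀ i, v i = p i - n i := by
    intro i
    simp only [hn, hp]
    rcases le_total (v i) 0 with h1 | h1
    · rw [max_eq_right h1, max_eq_left (by linarith)]; ring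
    · rw [max_eq_left h1, max_eq_right (by linarith)]; ring
  have hn0 : ∀ i, 0 ≤ n i := fun i => le_max_right _ _
  have hp0 : ∀ i, 0 ≤ p i := fun i => le_max_right _ _
  have hsum : ∑ i, p i = ∑ i, n i := by
    have : ∑ i, (p i - n i) = 0 := by
      rw [← hv]
      exact Finset.sum_congr rfl fun i _ => (hpn i).symm
    rw [Finset.sum_sub_distrib] at this
    linarith
  set M := ∑ i, n i with hM
  have hM0 : 0 ≤ M := Finset.sum_nonneg fun i _ => hn0 i
  rcases hM0.eq_or_lt with h0 | h0
  · have h1 : ∀ i, n i = 0 := fun i =>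
      (Finset.sum_eq_zero_iff_of_nonneg (fun i _ => hn0 i)).1 (hM.symm.trans h0.symm) i
        (Finset.mem_univ _)
    have h2 : ∀ i, p i = 0 := fun i =>
      (Finset.sum_eq_zero_iff_of_nonneg (fun i _ => hp0 i)).1 (hsum.trans h0.symm) i
        (Finset.mem_univ _)
    have h3 : v = 0 := by
      ext i
      rw [hpn, h1, h2]
      simp
    rw [h3]
    exact Cn.zero hx
  · have h1 : v = ∑ a, ∑ b, (n a * p b / M) • (Pi.single b (1 : ℝ) - Pi.single a (1 : ℝ)) := by
      ext i
      simp only [Finset.sum_apply, Pi.smul_apply, Pi.sub_apply, smul_eq_mul, mul_sub,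
        Finset.sum_sub_distrib]
      have e1 : ∑ a, ∑ b, n a * p b / M * (Pi.single b (1 : ℝ) : Option α → ℝ) i = p i := by
        have : ∀ a, ∑ b, n a * p b / M * (Pi.single b (1 : ℝ) : Option α → ℝ) i =
            n a * p i / M := by
          intro a
          rw [Finset.sum_eq_single i]
          · simp
          · intro b _ hb
            rw [Pi.single_eq_of_ne (Ne.symm hb), mul_zero]
          · intro h; exact absurd (Finset.mem_univ _) h
        simp only [this]
        rw [← Finset.sum_div, ← Finset.sum_mul, ← hM]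
        field_simp
      have e2 : ∑ a, ∑ b, n a * p b / M * (Pi.single a (1 : ℝ) : Option α → ℝ) i = n i := by
        rw [Finset.sum_eq_single i]
        · simp only [Pi.single_eq_same, mul_one]
          rw [← Finset.sum_div, ← Finset.mul_sum, hsum]
          field_simp
        · intro a _ ha
          simp only [Pi.single_eq_of_ne (Ne.symm ha), mul_zero, Finset.sum_const_zero]
        · intro h; exact absurd (Finset.mem_univ _) h
      rw [e1, e2]
      exact hpn i
    rw [h1]
    refine Cn.sum h.conv hx _ _ fun a _ => Cn.sum h.conv hx _ _ fun b _ => ?_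
    rcases (hn0 a).eq_or_lt with ha | ha
    · rw [← ha, zero_mul, zero_div, zero_smul]
      exact Cn.zero hx
    rcases (hp0 b).eq_or_lt with hb | hb
    · rw [← hb, mul_zero, zero_div, zero_smul]
      exact Cn.zero hx
    have ha' : v a < 0 := by
      by_contra hcon
      have : n a = 0 := max_eq_right (by linarith)
      linarith
    have hb' : 0 < v b := by
      by_contra hcon
      have : p b = 0 := max_eq_right (by linarith)
      linarith
    exact (h.swap hx (hvx a b ha' hb')).smul hx (by positivity)

end Pool.Agent.H843R3.Had2
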