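import Mathlib
import Pool.Agent.H843R3.Had2.Body

set_option autoImplicit false
set_option maxHeartbeats 1000000
set_option linter.unusedSectionVars false
set_option linter.unusedVariables false

open Set Topology

namespace Pool.Agent.H843R3.Had2

variable {α : Type*} [Fintype α] [DecidableEq α] {K : Set (Option α → ℝ)}

theorem Body.reg_aux (h : Body K) {x : Option α → ℝ} (hx : x ∈ K) (T : Finset α)
    (hT : T.card < Fintype.card α) (hTx : ∀ a ∈ T, x none ≤ x (some a))
    (hA : 0 ≤ x none - (∑ i, x i) / (Fintype.card α + 1)) :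
    (-(((T.card : ℝ) + 1) / (Fintype.card α - T.card)) *
      (x none - (∑ i, x i) / (Fintype.card α + 1)), ∑ i, x i) ∈ Qs K := by
  set μ : ℝ := (∑ i, x i) / (Fintype.card α + 1) with hμ
  set A : ℝ := x none - μ with hAdef
  have hmt : (0 : ℝ) < Fintype.card α - T.card := by
    rw [sub_pos]; exact_mod_cast hT
  set κ : ℝ := ((T.card : ℝ) + 1) / (Fintype.card α - T.card) with hκ
  have hκ0 : 0 < κ := by positivity
  have key : ∃ b : α, x (some b) - μ ≤ -κ * A := by
    by_contra hcon
    push Not at hcon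
    have h1 : ∑ i, (x i - μ) = 0 := by
      rw [Finset.sum_sub_distrib, Finset.sum_const, Finset.card_univ, Fintype.card_option,
        nsmul_eq_mul, hμ]
      push_cast
      field_simp
      ring
    rw [Fintype.sum_option, ← Finset.sum_add_sum_compl T] at h1
    have h2 : (T.card : ℝ) * A ≤ ∑ a ∈ T, (x (some a) - μ) := by
      rw [← nsmul_eq_mul]
      refine Finset.card_nsmul_le_sum _ _ _ fun a ha => ?_
      have := hTx a ha
      rw [hAdef]
      linarith
    have h3 : ((Fintype.card α : ℝ) - T.card) * (-κ * A) < ∑ a ∈ Tᶜ, (x (some a) - μ) := by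
      have h4 : (Tᶜ).card = Fintype.card α - T.card := Finset.card_compl T
      have h5 : ((Tᶜ).card : ℝ) = (Fintype.card α : ℝ) - T.card := by
        rw [h4, Nat.cast_sub hT.le]
      rw [← h5, ← nsmul_eq_mul, ← Finset.sum_const]
      refine Finset.sum_lt_sum_of_nonempty ?_ fun a _ => hcon a
      rw [← Finset.card_pos, h4]
      omega
    have h6 : ((Fintype.card α : ℝ) - T.card) * (-κ * A) = -(((T.card : ℝ) + 1) * A) := by
      rw [hκ]
      field_simp
    rw [h6] at h3
    change A + _ = 0 at h1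
    linarith
  obtain ⟨b, hb⟩ := key
  have h1 : (x (some b) - μ, ∑ i, x i) ∈ Qs K := h.avg_i hx (some b)
  have h2 : ((0 : ℝ), ∑ i, x i) ∈ Qs K := h.Q_z _ h1
  refine hconv h.Q_conv h1 h2 hb ?_
  have : 0 ≤ κ * A := mul_nonneg hκ0.le hA
  linarith

theorem Body.reg (h : Body K) {x : Option α → ℝ} (hx : x ∈ K) (T : Finset α)
    (hT0 : 0 < T.card) (hT : T.card < Fintype.card α) (hTx : ∀ a ∈ T, x none ≤ x (some a))
    (hTx' : ∀ a ∉ T, x (some a) ≤ x none) :
    Sh x ∈ Reg (Qs K) (((T.card : ℝ) + 1) / (Fintype.card α - T.card))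
      (((Fintype.card α : ℝ) - T.card + 1) / T.card) := by
  have h0 : Sh x ∈ Qs K := h.avg hx
  have hz : ((0 : ℝ), ∑ i, x i) ∈ Qs K := h.Q_z _ h0
  refine ⟨h0, ?_, ?_⟩
  · show (-(((T.card : ℝ) + 1) / (Fintype.card α - T.card)) *
      max (x none - (∑ i, x i) / (Fintype.card α + 1)) 0, ∑ i, x i) ∈ Qs K
    rcases le_total 0 (x none - (∑ i, x i) / (Fintype.card α + 1)) with h1 | h1
    · rw [max_eq_left h1]
      exact h.reg_aux hx T hT hTx h1
    · rw [max_eq_right h1, mul_zero]
      exact hz
  · show (((Fintype.card α : ℝ) - T.card + 1) / T.card *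
      max (-(x none - (∑ i, x i) / (Fintype.card α + 1))) 0, ∑ i, x i) ∈ Qs K
    rcases le_total 0 (x none - (∑ i, x i) / (Fintype.card α + 1)) with h1 | h1
    · rw [max_eq_right (by linarith), mul_zero]
      exact hz
    · rw [max_eq_left (by linarith)]
      have h4 : (Tᶜ).card = Fintype.card α - T.card := Finset.card_compl T
      have h5 : ((Tᶜ).card : ℝ) = (Fintype.card α : ℝ) - T.card := by
        rw [h4, Nat.cast_sub hT.le]
      have h6 := h.reg_aux (h.symm x hx) Tᶜ (by omega) (by
        intro a ha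
        rw [Finset.mem_compl] at ha
        simp only [Pi.neg_apply]
        linarith [hTx' a ha]) (by
        simp only [Pi.neg_apply, Finset.sum_neg_distrib]
        rw [neg_div]
        linarith)
      have h7 := h.Q_symm _ h6
      rw [h5] at h7
      simp only [Pi.neg_apply, Finset.sum_neg_distrib, Prod.neg_mk, neg_neg] at h7
      have h8 : -(-(((Fintype.card α : ℝ) - T.card + 1) / (Fintype.card α -
          ((Fintype.card α : ℝ) - T.card))) * (-x none - -(∑ i, x i) / (Fintype.card α + 1))) =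
          ((Fintype.card α : ℝ) - T.card + 1) / T.card *
            -(x none - (∑ i, x i) / (Fintype.card α + 1)) := by
        rw [sub_sub_cancel]
        ring
      rw [h8] at h7
      exact h7

/-- the direction of transport of a block -/
noncomputable def uT (T : Finset α) : Option α → ℝ :=
  fun i => i.elim 0 (fun a => if a ∈ T then -((Fintype.card α : ℝ) - T.card) else (T.card : ℝ))

theorem sum_uT (T : Finset α) : ∑ i, uT T i = 0 := by
  rw [Fintype.sum_option]
  simp only [uT, Option.elim_none, Option.elim_some, zero_add]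
  rw [← Finset.sum_add_sum_compl T, Finset.sum_congr rfl (fun a ha => if_pos ha),
    Finset.sum_congr rfl (fun a ha => if_neg (Finset.mem_compl.1 ha)), Finset.sum_const,
    Finset.sum_const, nsmul_eq_mul, nsmul_eq_mul]
  have h4 : (Tᶜ).card = Fintype.card α - T.card := Finset.card_compl T
  have h5 : ((Tᶜ).card : ℝ) = (Fintype.card α : ℝ) - T.card := by
    rw [h4, Nat.cast_sub (Finset.card_le_univ T)]
  rw [h5]
  ring

theorem Body.blockT (h : Body K) {x : Option α → ℝ} (hx : x ∈ K) (T : Finset α)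
    (hT0 : 0 < T.card) (hT : T.card < Fintype.card α)
    (hTx : ∀ a ∈ T, ∀ b ∉ T, x (some b) < x (some a)) {R : ℝ} (hR : ∀ y ∈ K, ∀ i, |y i| ≤ R)
    {d : ℝ × ℝ} {ε : ℝ} (hε : 0 < ε) (hq : Sh x + ε • d ∈ interior (Qs K)) {M : ℝ}
    (hM : 2 * R < ε * M) : Co K x (M • uT T + P α d) := by
  have hy := h.P_int hq
  have hmt : (1 : ℝ) ≤ Fintype.card α - T.card := by
    have : (T.card : ℝ) + 1 ≤ Fintype.card α := by exact_mod_cast hT
    linarith
  have ht : (1 : ℝ) ≤ T.card := by exact_mod_cast hT0
  have hR0 : 0 ≤ R := (abs_nonneg _).trans (hR x hx none)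
  set v : Option α → ℝ := (ε * M) • uT T - (P α (Sh x) - x) with hv
  have hcn : Cn K x v := by
    refine h.transport hx v ?_ ?_
    · rw [hv]
      simp only [Pi.sub_apply, Pi.smul_apply, smul_eq_mul, Finset.sum_sub_distrib]
      rw [← Finset.mul_sum, sum_uT, sum_P h.card, mul_zero, Sh]
      simp
    · have hnone : v none = 0 := by
        rw [hv]
        simp only [Pi.sub_apply, Pi.smul_apply, smul_eq_mul, P_Sh_none, uT, Option.elim_none]
        ring
      have hbd : ∀ i, |P α (Sh x) i - x i| ≤ 2 * R := by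
        intro i
        have h1 := hR _ (h.avg hx) i
        have h2 := hR _ hx i
        have h3 := abs_sub (P α (Sh x) i) (x i)
        linarith
      rintro (_ | a) (_ | b) h1 h2
      · rw [hnone] at h1; exact absurd h1 (lt_irrefl _)
      · rw [hnone] at h1; exact absurd h1 (lt_irrefl _)
      · rw [hnone] at h2; exact absurd h2 (lt_irrefl _)
      · refine hTx a ?_ b ?_
        · by_contra ha
          have h3 := hbd (some a)
          rw [abs_le] at h3
          rw [hv] at h1
          simp only [Pi.sub_apply, Pi.smul_apply, smul_eq_mul, uT, Option.elim_some,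
            if_neg ha] at h1
          nlinarith [mul_nonneg (by linarith : 0 ≤ ε * M) (by linarith : (0 : ℝ) ≤ T.card - 1)]
        · intro hb
          have h3 := hbd (some b)
          rw [abs_le] at h3
          rw [hv] at h2
          simp only [Pi.sub_apply, Pi.smul_apply, smul_eq_mul, uT, Option.elim_some,
            if_pos hb] at h2
          nlinarith [mul_nonneg (by linarith : 0 ≤ ε * M)
            (by linarith : (0 : ℝ) ≤ (Fintype.card α : ℝ) - T.card - 1)]
  have h1 := Co.of h.conv hcn hy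
  have h2 : v + (P α (Sh x + ε • d) - x) = ε • (M • uT T + P α d) := by
    rw [hv, map_add, map_smul, smul_add, smul_smul]
    abel
  rw [h2] at h1
  have h3 := h1.smul (c := 1 / ε) (by positivity)
  rwa [smul_smul, one_div, inv_mul_cancel₀ hε.ne', one_smul] at h3

theorem Body.blockTop (h : Body K) {x : Option α → ℝ} (hx : x ∈ K)
    (hxt : ∀ a, x (some a) < x none) {R : ℝ} (hR : ∀ y ∈ K, ∀ i, |y i| ≤ R) {M ε : ℝ}
    (hM : 2 * R < M) (hq : ((0 : ℝ), (∑ i, x i) + ε) ∈ interior (Qs K)) :
    Co K x (P α (-(Fintype.card α * M), ε)) := by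
  have hy := h.P_int hq
  have hm : (1 : ℝ) ≤ Fintype.card α := by exact_mod_cast h.card
  have hR0 : 0 ≤ R := (abs_nonneg _).trans (hR x hx none)
  set s : ℝ := ∑ i, x i with hs
  have hz : P α ((0 : ℝ), s) ∈ K := h.Q_z _ (h.avg hx)
  set v : Option α → ℝ := P α (-(Fintype.card α * M), 0) - (P α (0, s) - x) with hv
  have hcn : Cn K x v := by
    refine h.transport hx v ?_ ?_
    · rw [hv]
      simp only [Pi.sub_apply, Finset.sum_sub_distrib]
      rw [sum_P h.card, sum_P h.card]
      simp [hs]
    · have hbd : ∀ i, |P α (0, s) i - x i| ≤ 2 * R := by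
        intro i
        have h1 := hR _ hz i
        have h2 := hR _ hx i
        have h3 := abs_sub (P α (0, s) i) (x i)
        linarith
      rintro a b h1 h2
      have ha : ∀ a : α, 0 < v (some a) := by
        intro a
        have h3 := hbd (some a)
        rw [abs_le] at h3
        rw [hv]
        have h4 : P α (-(Fintype.card α * M), 0) (some a) = M := by
          rw [P_some]
          field_simp
          ring
        rw [Pi.sub_apply, h4, Pi.sub_apply]
        linarith
      have hn : v none < 0 := by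
        have h3 := hbd none
        rw [abs_le] at h3
        rw [hv]
        have h4 : P α (-(Fintype.card α * M), 0) none = -(Fintype.card α * M) := by
          rw [P_none]
          simp
        rw [Pi.sub_apply, h4, Pi.sub_apply]
        nlinarith
      cases a with
      | some a => exact absurd h1 (not_lt.2 (ha a).le)
      | none =>
        cases b with
        | none => exact absurd h2 (not_lt.2 hn.le)
        | some b => exact hxt b
  have h1 := Co.of h.conv hcn hy
  have h2 : v + (P α (0, s + ε) - x) = P α (-(Fintype.card α * M), ε) := by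
    have e1 : ((-(Fintype.card α * M), ε) : ℝ × ℝ) =
        (-(Fintype.card α * M), 0) + ((0, s + ε) - (0, s)) := by
      ext <;> simp
    rw [e1, map_add, map_sub, hv]
    abel
  rw [h2] at h1
  exact h1

theorem Body.constTop (h : Body K) {s : ℝ} (hx : P α (0, s) ∈ K)
    (hA : ∃ A : ℝ, A ≠ 0 ∧ (A, s) ∈ Qs K) {N ε : ℝ}
    (hN : 0 ≤ N) (hq : ((0 : ℝ), s + ε) ∈ interior (Qs K)) :
    Co K (P α (0, s)) (P α (-N, ε)) := by
  have hy := h.P_int hq
  have hm : (0 : ℝ) < Fintype.card α := by exact_mod_cast h.card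
  have hneg : ∃ A : ℝ, 0 < A ∧ (-A, s) ∈ Qs K := by
    obtain ⟨A, hA0, hA1⟩ := hA
    rcases lt_or_gt_of_ne hA0 with h1 | h1
    · exact ⟨-A, by linarith, by rwa [neg_neg]⟩
    · have h2 := h.Q_opp hA1
      refine ⟨A / Fintype.card α, by positivity, ?_⟩
      simp only at h2
      rwa [neg_div] at h2
  obtain ⟨A, hA0, hA1⟩ := hneg
  have hcn : Cn K (P α (0, s)) (P α (-1, 0)) := by
    refine ⟨A, hA0, ?_⟩
    rw [← map_smul, ← map_add]
    have h1 : (((0 : ℝ), s) : ℝ × ℝ) + A • (((-1 : ℝ), (0 : ℝ)) : ℝ × ℝ) = (-A, s) := by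
      ext <;> simp
    rw [h1]
    exact hA1
  have h1 := Co.of h.conv (hcn.smul hx hN) hy
  have h2 : N • P α (-1, 0) + (P α (0, s + ε) - P α (0, s)) = P α (-N, ε) := by
    rw [← map_smul, ← map_sub, ← map_add]
    congr 1
    ext <;> simp
  rw [h2] at h1
  exact h1

theorem Body.T_dir (h : Body K) {R : ℝ} (hR : ∀ y ∈ K, ∀ i, |y i| ≤ R) (J : Set ℝ)
    (hJc : IsClosed J) (hJs : ∀ s ∈ J, -s ∈ J)
    (hJ : ∀ s ∈ J, ∀ a, (a, s) ∈ Qs K → ∃ A : ℝ, A ≠ 0 ∧ (A, s) ∈ Qs K)
    (T : Finset α) (hT0 : 0 < T.card) (hT : T.card < Fintype.card α) :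
    ∃ w : Bool → (Option α → ℝ), ∀ x ∈ K, (∑ i, x i) ∈ J → (∀ a ∈ T, x none ≤ x (some a)) →
      (∀ a ∉ T, x (some a) ≤ x none) → (∀ a ∈ T, ∀ b ∉ T, x (some b) < x (some a)) →
      ∃ b, Co K x (w b) := by
  have hmt : (1 : ℝ) ≤ Fintype.card α - T.card := by
    have : (T.card : ℝ) + 1 ≤ Fintype.card α := by exact_mod_cast hT
    linarith
  have ht : (1 : ℝ) ≤ T.card := by exact_mod_cast hT0
  set κ : ℝ := ((T.card : ℝ) + 1) / (Fintype.card α - T.card) with hκ
  set κ' : ℝ := ((Fintype.card α : ℝ) - T.card + 1) / T.card with hκ'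
  have hκ0 : 0 < κ := by positivity
  have hκ0' : 0 < κ' := by positivity
  have hκκ : 1 < κ * κ' := by
    rw [hκ, hκ', div_mul_div_comm, one_lt_div (by positivity)]
    nlinarith
  obtain ⟨d, hd⟩ := planar h.Q_conv h.Q_comp h.Q_zero h.Q_symm h.Q_z hκ0 hκ0' hκκ J hJs hJ
  have hS : IsCompact (Reg (Qs K) κ κ' ∩ {q | q.2 ∈ J}) :=
    (Reg.isCompact h.Q_comp κ κ').inter_right (hJc.preimage continuous_snd)
  obtain ⟨r, hr, hr1⟩ := unif h.Q_conv hS (fun q hq => hq.1.1) d (fun q hq => hd q hq.1 hq.2)
  refine ⟨fun b => ((2 * R + 1) / r) • uT T + P α (d b), ?_⟩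
  intro x hx hxJ h1 h2 h3
  obtain ⟨b, hb⟩ := hr1 (Sh x) ⟨h.reg hx T hT0 hT h1 h2, hxJ⟩
  refine ⟨b, h.blockT hx T hT0 hT h3 hR hr hb ?_⟩
  rw [mul_div_cancel₀ _ hr.ne']
  linarith

theorem Body.types (h : Body K) {x : Option α → ℝ} :
    (∀ a, x (some a) < x none) ∨ (∀ a, x none < x (some a)) ∨ x = P α (0, ∑ i, x i) ∨
    ∃ T : Finset α, 0 < T.card ∧ T.card < Fintype.card α ∧ (∀ a ∈ T, x none ≤ x (some a)) ∧
      (∀ a ∉ T, x (some a) ≤ x none) ∧ (∀ a ∈ T, ∀ b ∉ T, x (some b) < x (some a)) := by
  have hm : (0 : ℝ) < Fintype.card α := by exact_mod_cast h.card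
  by_cases htop : ∀ a, x (some a) ≤ x none
  · set T : Finset α := Finset.univ.filter (fun a => x (some a) = x none) with hT
    rcases Nat.eq_zero_or_pos T.card with h0 | h0
    · left
      intro a
      refine lt_of_le_of_ne (htop a) fun hcon => ?_
      have : a ∈ T := by rw [hT]; simp [hcon]
      rw [Finset.card_eq_zero.1 h0] at this
      exact absurd this (Finset.notMem_empty a)
    · rcases (Finset.card_le_univ T).eq_or_lt with h1 | h1
      · right; right; left
        have h2 : ∀ a, x (some a) = x none := by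
          intro a
          have : a ∈ T := by
            rw [(Finset.card_eq_iff_eq_univ T).1 h1]
            exact Finset.mem_univ a
          rw [hT] at this
          simpa using this
        ext i
        have h3 : ∑ i, x i = (Fintype.card α + 1) * x none := by
          rw [Fintype.sum_option, Finset.sum_congr rfl (fun a _ => h2 a), Finset.sum_const,
            Finset.card_univ, nsmul_eq_mul]
          ring
        cases i with
        | none => rw [P_none, h3]; field_simp; ring
        | some a => rw [P_some, h3, h2]; field_simp; ring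
      · right; right; right
        refine ⟨T, h0, h1, ?_, fun a _ => htop a, ?_⟩
        · intro a ha
          rw [hT] at ha
          simp only [Finset.mem_filter, Finset.mem_univ, true_and] at ha
          exact ha.ge
        · intro a ha b hb
          rw [hT] at ha hb
          simp only [Finset.mem_filter, Finset.mem_univ, true_and] at ha hb
          rw [ha]
          exact lt_of_le_of_ne (htop b) hb
  · push Not at htop
    obtain ⟨a0, ha0⟩ := htop
    set T : Finset α := Finset.univ.filter (fun a => x none < x (some a)) with hT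
    have h0 : 0 < T.card := Finset.card_pos.2 ⟨a0, by rw [hT]; simp [ha0]⟩
    rcases (Finset.card_le_univ T).eq_or_lt with h1 | h1
    · right; left
      intro a
      have : a ∈ T := by
        rw [(Finset.card_eq_iff_eq_univ T).1 h1]
        exact Finset.mem_univ a
      rw [hT] at this
      simpa using this
    · right; right; right
      refine ⟨T, h0, h1, ?_, ?_, ?_⟩
      · intro a ha
        rw [hT] at ha
        simp only [Finset.mem_filter, Finset.mem_univ, true_and] at ha
        exact ha.le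
      · intro a ha
        rw [hT] at ha
        simpa using ha
      · intro a ha b hb
        rw [hT] at ha hb
        simp only [Finset.mem_filter, Finset.mem_univ, true_and, not_lt] at ha hb
        exact lt_of_le_of_lt hb ha

theorem Body.assemble (h : Body K) {R : ℝ} (hR : ∀ y ∈ K, ∀ i, |y i| ≤ R) (J : Set ℝ)
    (hJc : IsClosed J) (hJs : ∀ s ∈ J, -s ∈ J)
    (hJ : ∀ s ∈ J, ∀ a, (a, s) ∈ Qs K → ∃ A : ℝ, A ≠ 0 ∧ (A, s) ∈ Qs K)
    (w0 : Bool → (Option α → ℝ))
    (h1 : ∀ x ∈ K, (∑ i, x i) ∈ J → (∀ a, x (some a) < x none) → ∃ b, Co K x (w0 b))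
    (h2 : ∀ x ∈ K, ((∑ i, x i) ∉ J ∨ x = P α (0, ∑ i, x i)) →
      ∃ b, Co K x (w0 b) ∨ Co K x (-w0 b)) :
    ∃ w : Finset α × Bool → (Option α → ℝ), ∀ x ∈ K, ∃ j, Co K x (w j) := by
  classical
  choose! wT hwT using h.T_dir hR J hJc hJs hJ
  have hne : (Finset.univ : Finset α) ≠ ∅ := by
    rw [← Finset.nonempty_iff_ne_empty, ← Finset.card_pos, Finset.card_univ]
    exact h.card
  set w : Finset α × Bool → (Option α → ℝ) := fun j =>
    if j.1 = ∅ then w0 j.2 else if j.1 = Finset.univ then -w0 j.2 else wT j.1 j.2 with hw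
  have e1 : ∀ b, w (∅, b) = w0 b := fun b => by rw [hw]; simp
  have e2 : ∀ b, w (Finset.univ, b) = -w0 b := fun b => by
    rw [hw]; simp only [if_neg hne, if_true]
  refine ⟨w, fun x hx => ?_⟩
  by_cases hxJ : (∑ i, x i) ∈ J
  · rcases h.types (x := x) with h3 | h3 | h3 | ⟨T, hT0, hT, h4, h5, h6⟩
    · obtain ⟨b, hb⟩ := h1 x hx hxJ h3
      exact ⟨(∅, b), by rw [e1]; exact hb⟩
    · obtain ⟨b, hb⟩ := h1 (-x) (h.symm x hx) (by
        simp only [Pi.neg_apply, Finset.sum_neg_distrib]
        exact hJs _ hxJ) (fun a => by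
        simp only [Pi.neg_apply]
        linarith [h3 a])
      exact ⟨(Finset.univ, b), by rw [e2]; exact Co.neg h.symm hb⟩
    · obtain ⟨b, hb | hb⟩ := h2 x hx (Or.inr h3)
      · exact ⟨(∅, b), by rw [e1]; exact hb⟩
      · exact ⟨(Finset.univ, b), by rw [e2]; exact hb⟩
    · obtain ⟨b, hb⟩ := hwT T hT0 hT x hx hxJ h4 h5 h6
      refine ⟨(T, b), ?_⟩
      have h7 : T ≠ ∅ := by rintro rfl; simp at hT0
      have h8 : T ≠ Finset.univ := by rintro rfl; simp at hT
      rw [hw]
      simp only [if_neg h7, if_neg h8]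
      exact hb
  · obtain ⟨b, hb | hb⟩ := h2 x hx (Or.inl hxJ)
    · exact ⟨(∅, b), by rw [e1]; exact hb⟩
    · exact ⟨(Finset.univ, b), by rw [e2]; exact hb⟩

end Pool.Agent.H843R3.Had2
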