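import Mathlib
import Pool.Agent.H843R3.Had2.Main

set_option autoImplicit false
set_option maxHeartbeats 1000000
set_option linter.unusedSectionVars false
set_option linter.unusedVariables false

open Set Topology

namespace Pool.Agent.H843R3.Had2

variable {α : Type*} [Fintype α] [DecidableEq α] {K : Set (Option α → ℝ)}

theorem Body.bound (h : Body K) : ∃ R : ℝ, 0 ≤ R ∧ ∀ y ∈ K, ∀ i, |y i| ≤ R := by
  obtain ⟨R, hR⟩ := h.comp.isBounded.exists_norm_le
  have h0 : (0 : Option α → ℝ) ∈ K := interior_subset h.zero_mem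
  exact ⟨R, (norm_nonneg _).trans (hR 0 h0), fun y hy i => (norm_le_pi_norm y i).trans (hR y hy)⟩

theorem Body.vert (h : Body K) : ∃ y : ℝ, 0 < y ∧ ((0 : ℝ), y) ∈ interior (Qs K) ∧
    ((0 : ℝ), -y) ∈ interior (Qs K) := by
  obtain ⟨ε, hε, h1⟩ := Co.of_interior h.Q_zero ((0 : ℝ), (1 : ℝ))
  have h2 : (0 : ℝ × ℝ) + ε • ((0 : ℝ), (1 : ℝ)) = (0, ε) := by
    ext <;> simp
  rw [h2] at h1
  refine ⟨ε, hε, h1, ?_⟩
  have h3 := neg_interior h.Q_symm h1
  have h4 : -(((0 : ℝ), ε) : ℝ × ℝ) = (0, -ε) := by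
    ext <;> simp
  rwa [h4] at h3

theorem Body.level_down (h : Body K) {y s : ℝ} (hy0 : 0 < y)
    (hy : ((0 : ℝ), -y) ∈ interior (Qs K)) (hs : 0 ≤ s) (hs1 : ((0 : ℝ), s) ∈ Qs K) :
    ((0 : ℝ), s + -y) ∈ interior (Qs K) := by
  have h1 := h.Q_conv.combo_self_interior_mem_interior hs1 hy (a := s / (s + y))
    (b := y / (s + y)) (by positivity) (by positivity) (by field_simp)
  have h2 : (s / (s + y)) • (((0 : ℝ), s) : ℝ × ℝ) + (y / (s + y)) • ((0 : ℝ), -y) =
      (0, s + -y) := by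
    ext
    · simp
    · simp only [Prod.snd_add, Prod.smul_snd, smul_eq_mul]
      have : s + y ≠ 0 := by positivity
      field_simp
      ring
  rwa [h2] at h1

theorem Body.level_up (h : Body K) {y s : ℝ} (hy0 : 0 < y)
    (hy : ((0 : ℝ), y) ∈ interior (Qs K)) (hs : s ≤ 0) (hs1 : ((0 : ℝ), s) ∈ Qs K) :
    ((0 : ℝ), s + y) ∈ interior (Qs K) := by
  have h5 : (0 : ℝ) < -s + y := by linarith
  have h1 := h.Q_conv.combo_self_interior_mem_interior hs1 hy (a := -s / (-s + y))
    (b := y / (-s + y)) (div_nonneg (by linarith) h5.le) (by positivity) (by field_simp)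
  have h2 : (-s / (-s + y)) • (((0 : ℝ), s) : ℝ × ℝ) + (y / (-s + y)) • ((0 : ℝ), y) =
      (0, s + y) := by
    ext
    · simp
    · simp only [Prod.snd_add, Prod.smul_snd, smul_eq_mul]
      field_simp
      ring
  rwa [h2] at h1

/-- The case without apex. -/
theorem Body.nonapex (h : Body K)
    (hJ : ∀ s, ∀ a, (a, s) ∈ Qs K → ∃ A : ℝ, A ≠ 0 ∧ (A, s) ∈ Qs K) :
    ∃ w : Finset α × Bool → (Option α → ℝ), ∀ x ∈ K, ∃ j, Co K x (w j) := by
  obtain ⟨R, hR0, hR⟩ := h.bound
  obtain ⟨y, hy0, hy1, hy2⟩ := h.vert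
  refine h.assemble hR univ isClosed_univ (fun _ _ => mem_univ _) (fun s _ => hJ s)
    (fun b => P α (-(Fintype.card α * (2 * R + 1)), if b then -y else y)) ?_ ?_
  · intro x hx _ hxt
    have hz : ((0 : ℝ), ∑ i, x i) ∈ Qs K := h.Q_z _ (h.avg hx)
    rcases le_total 0 (∑ i, x i) with h1 | h1
    · refine ⟨true, ?_⟩
      simp only [if_true]
      exact h.blockTop hx hxt hR (by linarith) (h.level_down hy0 hy2 h1 hz)
    · refine ⟨false, ?_⟩
      simp only [Bool.false_eq_true, if_false]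
      exact h.blockTop hx hxt hR (by linarith) (h.level_up hy0 hy1 h1 hz)
  · rintro x hx (h1 | h1)
    · exact absurd (mem_univ _) h1
    · have hz : ((0 : ℝ), ∑ i, x i) ∈ Qs K := h.Q_z _ (h.avg hx)
      set s : ℝ := ∑ i, x i with hs
      rcases le_total 0 s with h2 | h2
      · refine ⟨true, Or.inl ?_⟩
        simp only [if_true]
        rw [h1]
        exact h.constTop hz (hJ s 0 hz) (by positivity) (h.level_down hy0 hy2 h2 hz)
      · refine ⟨false, Or.inl ?_⟩
        simp only [Bool.false_eq_true, if_false]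
        rw [h1]
        exact h.constTop hz (hJ s 0 hz) (by positivity) (h.level_up hy0 hy1 h2 hz)

/-- The case with apex. -/
theorem Body.apex (h : Body K) {s0 : ℝ} (hs0 : ((0 : ℝ), s0) ∈ Qs K)
    (hs1 : ∀ A : ℝ, (A, s0) ∈ Qs K → A = 0) :
    ∃ w : Finset α × Bool → (Option α → ℝ), ∀ x ∈ K, ∃ j, Co K x (w j) := by
  obtain ⟨R, hR0, hR⟩ := h.bound
  obtain ⟨H, hH0, hH1, hH2⟩ : ∃ H : ℝ, 0 < H ∧ ((0 : ℝ), H) ∈ Qs K ∧
      ∀ A : ℝ, (A, H) ∈ Qs K → A = 0 := by
    rcases lt_trichotomy s0 0 with h1 | h1 | h1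
    · refine ⟨-s0, by linarith, ?_, ?_⟩
      · have h2 := h.Q_symm _ hs0
        have h3 : -(((0 : ℝ), s0) : ℝ × ℝ) = (0, -s0) := by
          ext <;> simp
        rwa [h3] at h2
      · intro A hA
        have h2 := h.Q_symm _ hA
        have h3 : -((A, -s0) : ℝ × ℝ) = (-A, s0) := by
          ext <;> simp
        rw [h3] at h2
        linarith [hs1 _ h2]
    · exfalso
      obtain ⟨ε, hε, h2⟩ := Co.of_interior h.Q_zero ((1 : ℝ), (0 : ℝ))
      have h3 : (0 : ℝ × ℝ) + ε • ((1 : ℝ), (0 : ℝ)) = (ε, s0) := by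
        ext <;> simp [h1]
      rw [h3] at h2
      linarith [hs1 _ (interior_subset h2)]
    · exact ⟨s0, h1, hs0, hs1⟩
  -- inner levels
  have hin : ∀ s : ℝ, |s| < H → ((0 : ℝ), s) ∈ interior (Qs K) := by
    intro s hs
    have h1 := smul_int h.Q_conv h.Q_symm h.Q_zero hH1 (c := s / H) (by
      rwa [abs_div, abs_of_pos hH0, div_lt_one hH0])
    have h2 : (s / H) • (((0 : ℝ), H) : ℝ × ℝ) = (0, s) := by
      ext
      · simp
      · simp only [Prod.smul_snd, smul_eq_mul]
        field_simp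
    rwa [h2] at h1
  have hle : ∀ q ∈ Qs K, q.2 ≤ H := by
    intro q hq
    by_contra hcon
    push Not at hcon
    have hq2 : 0 < q.2 := hH0.trans hcon
    have h1 := smul_int h.Q_conv h.Q_symm h.Q_zero (h.Q_z q hq) (c := H / q.2) (by
      rw [abs_of_pos (by positivity), div_lt_one hq2]
      exact hcon)
    have h2 : (H / q.2) • (((0 : ℝ), q.2) : ℝ × ℝ) = (0, H) := by
      ext
      · simp
      · simp only [Prod.smul_snd, smul_eq_mul]
        field_simp
    rw [h2] at h1
    obtain ⟨ε, hε, h3⟩ := Co.of_interior h1 ((1 : ℝ), (0 : ℝ))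
    have h4 : (((0 : ℝ), H) : ℝ × ℝ) + ε • ((1 : ℝ), (0 : ℝ)) = (ε, H) := by
      ext <;> simp
    rw [h4] at h3
    linarith [hH2 _ (interior_subset h3)]
  set e : Option α → ℝ := P α (0, H) with he
  -- the caps
  obtain ⟨δ, hδ0, hδ⟩ : ∃ δ : ℝ, 0 < δ ∧ ∀ x ∈ K, H - δ < ∑ i, x i → x - e ∈ interior K := by
    have hV : IsOpen {x : Option α → ℝ | x - e ∈ interior K} :=
      isOpen_interior.preimage (continuous_id.sub continuous_const)
    have hC : IsCompact (K \ {x : Option α → ℝ | x - e ∈ interior K}) := h.comp.diff hV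
    rcases (K \ {x : Option α → ℝ | x - e ∈ interior K}).eq_empty_or_nonempty with h1 | h1
    · refine ⟨1, one_pos, fun x hx _ => ?_⟩
      by_contra hcon
      have : x ∈ K \ {x : Option α → ℝ | x - e ∈ interior K} := ⟨hx, hcon⟩
      rw [h1] at this
      exact absurd this (notMem_empty x)
    · obtain ⟨x0, hx0, hmax⟩ := hC.exists_isMaxOn h1
        (f := fun x : Option α → ℝ => ∑ i, x i) (by fun_prop)
      have hmax' : ∀ x ∈ K \ {x : Option α → ℝ | x - e ∈ interior K},
          ∑ i, x i ≤ ∑ i, x0 i := fun x hx => hmax hx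
      have h2 : ∑ i, x0 i ≤ H := hle _ (h.avg hx0.1)
      have h3 : ∑ i, x0 i ≠ H := by
        intro hcon
        refine hx0.2 ?_
        have h4 : x0 = e := by
          ext i
          have h5 := h.avg_i hx0.1 i
          rw [hcon] at h5
          have h6 := hH2 _ h5
          rw [he]
          cases i with
          | none => rw [P_none]; linarith
          | some a => rw [P_some]; simp only [neg_zero, zero_div]; linarith
        show x0 - e ∈ interior K
        rw [h4, sub_self]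
        exact h.zero_mem
      refine ⟨H - ∑ i, x0 i, by
        have := lt_of_le_of_ne h2 h3
        linarith, fun x hx h4 => ?_⟩
      by_contra hcon
      have := hmax' x ⟨hx, hcon⟩
      linarith
  refine h.assemble hR {s | |s| ≤ H - δ} (isClosed_le continuous_abs continuous_const)
    (fun s hs => by
      show |-s| ≤ H - δ
      rw [abs_neg]
      exact hs) (fun s hs a _ => ?_)
    (fun b => if b then P α (-(Fintype.card α * (2 * R + 1)), δ / 2) else -e) ?_ ?_
  · have hs' : |s| ≤ H - δ := hs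
    obtain ⟨ε, hε, h3⟩ := Co.of_interior (hin s (by linarith)) ((1 : ℝ), (0 : ℝ))
    have h4 : (((0 : ℝ), s) : ℝ × ℝ) + ε • ((1 : ℝ), (0 : ℝ)) = (ε, s) := by
      ext <;> simp
    rw [h4] at h3
    exact ⟨ε, hε.ne', interior_subset h3⟩
  · intro x hx hxJ hxt
    refine ⟨true, ?_⟩
    simp only [if_true]
    refine h.blockTop hx hxt hR (by linarith) (hin _ ?_)
    have hs' : |∑ i, x i| ≤ H - δ := hxJ
    rw [abs_le] at hs'
    rw [abs_lt]
    constructor <;> linarith [hs'.1, hs'.2]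
  · intro x hx hor
    by_cases hxJ : |∑ i, x i| ≤ H - δ
    · rcases hor with h1 | h1
      · exact absurd hxJ h1
      · refine ⟨true, Or.inl (Co.of_interior ?_ _)⟩
        rw [h1]
        exact h.P_int (hin _ (by linarith))
    · push Not at hxJ
      refine ⟨false, ?_⟩
      simp only [Bool.false_eq_true, if_false]
      rcases lt_abs.1 hxJ with h1 | h1
      · left
        refine ⟨1, one_pos, ?_⟩
        rw [one_smul, ← sub_eq_add_neg]
        exact hδ x hx h1
      · right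
        refine Co.neg h.symm ⟨1, one_pos, ?_⟩
        rw [one_smul, ← sub_eq_add_neg]
        refine hδ _ (h.symm x hx) ?_
        simpa using h1

theorem Body.illuminate (h : Body K) :
    ∃ w : Finset α × Bool → (Option α → ℝ), ∀ x ∈ K, ∃ j, Co K x (w j) := by
  by_cases hJ : ∀ s, ∀ a, (a, s) ∈ Qs K → ∃ A : ℝ, A ≠ 0 ∧ (A, s) ∈ Qs K
  · exact h.nonapex hJ
  · push Not at hJ
    obtain ⟨s, a, hsa, hs⟩ := hJ
    refine h.apex (s0 := s) (h.Q_z _ hsa) fun A hA => ?_
    by_contra hcon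
    exact hs A hcon hA

/-- The covering. -/
theorem Body.cover (h : Body K) :
    ∃ v : Finset α × Bool → (Option α → ℝ), ∀ x ∈ K, ∃ j, x - v j ∈ interior K := by
  obtain ⟨w, hw⟩ := h.illuminate
  obtain ⟨r, hr, h1⟩ := unif h.conv h.comp subset_rfl w hw
  refine ⟨fun j => -(r • w j), fun x hx => ?_⟩
  obtain ⟨j, hj⟩ := h1 x hx
  refine ⟨j, ?_⟩
  rw [sub_neg_eq_add]
  exact hj

end Pool.Agent.H843R3.Had2
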